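import Pool.Agent.Helper79.AL.St1

/-! # AL module GAZ: the Galois action on `zz` -/

set_option autoImplicit false

namespace Pool.Agent.Helper61.AL

open Matrix ComplexConjugate Pool.Agent.Helper94.YG
open Pool.Agent.Helper94.YF hiding StORB
open Pool.Agent.Helper89.OS Pool.Agent.Helper89.OC Pool.Agent.Helper79.AL

/-- entries of `s2 (1 - b)` -/
private theorem s2_ent {L : ℕ} (b : ZMod L) (hb : b * b = b) :
    (s2 (1 - b) : SL L) 0 0 = b ∧ (s2 (1 - b) : SL L) 0 1 = -(1 - b) ∧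
    (s2 (1 - b) : SL L) 1 0 = 1 - b ∧ (s2 (1 - b) : SL L) 1 1 = b := by
  have h : ((s2 (1 - b) : SL L) : Matrix (Fin 2) (Fin 2) (ZMod L)) =
      !![1, -(1 - b); 0, 1] * !![1, 0; 1 - b, 1] * !![1, -(1 - b); 0, 1] := rfl
  rw [h]
  refine ⟨?_, ?_, ?_, ?_⟩ <;>
    simp [Matrix.mul_apply, Fin.sum_univ_two]
  · linear_combination -hb
  · linear_combination (2 - b) * hb
  · linear_combination -hb

private theorem mulD {L : ℕ} (g : SL L) (x : (ZMod L)ˣ) :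
    (g * Dg x : SL L) 0 0 = g 0 0 * (x : ZMod L) ∧
    (g * Dg x : SL L) 0 1 = g 0 1 * ((x⁻¹ : (ZMod L)ˣ) : ZMod L) ∧
    (g * Dg x : SL L) 1 0 = g 1 0 * (x : ZMod L) ∧
    (g * Dg x : SL L) 1 1 = g 1 1 * ((x⁻¹ : (ZMod L)ˣ) : ZMod L) := by
  have h : ((g * Dg x : SL L) : Matrix (Fin 2) (Fin 2) (ZMod L)) =
      (g : Matrix (Fin 2) (Fin 2) (ZMod L)) *
        !![(x : ZMod L), 0; 0, ((x⁻¹ : (ZMod L)ˣ) : ZMod L)] := rfl
  rw [h]
  refine ⟨?_, ?_, ?_, ?_⟩ <;>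
    simp [Matrix.mul_apply, Fin.sum_univ_two]

/-- entries of `s2 (1 - b) * Dg x⁻¹` -/
private theorem g_ent {L : ℕ} (b : ZMod L) (hb : b * b = b) (c x : (ZMod L)ˣ)
    (h1 : (x : ZMod L) * b = b) (h2 : (x : ZMod L) * (1 - b) = (c : ZMod L) * (1 - b)) :
    (s2 (1 - b) * Dg x⁻¹ : SL L) 0 0 = (s2 (1 - b) : SL L) 0 0 ∧
    (s2 (1 - b) * Dg x⁻¹ : SL L) 0 1 = (c : ZMod L) * (s2 (1 - b) : SL L) 0 1 ∧
    (c : ZMod L) * (s2 (1 - b) * Dg x⁻¹ : SL L) 1 0 = (s2 (1 - b) : SL L) 1 0 ∧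
    (s2 (1 - b) * Dg x⁻¹ : SL L) 1 1 = (s2 (1 - b) : SL L) 1 1 := by
  obtain ⟨e0, e1, e2, e3⟩ := s2_ent b hb
  obtain ⟨m0, m1, m2, m3⟩ := mulD (s2 (1 - b)) x⁻¹
  have hx : (x : ZMod L) * ((x⁻¹ : (ZMod L)ˣ) : ZMod L) = 1 := x.mul_inv
  rw [m0, m1, m2, m3, e0, e1, e2, e3, inv_inv]
  refine ⟨?_, ?_, ?_, ?_⟩
  · linear_combination -((x⁻¹ : (ZMod L)ˣ) : ZMod L) * h1 + b * hx
  · linear_combination -h2
  · linear_combination -((x⁻¹ : (ZMod L)ˣ) : ZMod L) * h2 + (1 - b) * hx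
  · linear_combination h1

private theorem Dg_mul {L : ℕ} (x : (ZMod L)ˣ) : (Dg x * Dg x⁻¹ : SL L) = 1 := by
  obtain ⟨m0, m1, m2, m3⟩ := mulD (Dg x) x⁻¹
  refine Subtype.ext ?_
  ext i j
  fin_cases i <;> fin_cases j
  · exact m0.trans (by simp [Dg])
  · exact m1.trans (by simp [Dg])
  · exact m2.trans (by simp [Dg])
  · exact m3.trans (by simp [Dg])

private theorem pi_inv {I : Type} [Fintype I] [DecidableEq I] (Z : CentreData I)
    (π : (ZMod Z.L)ˣ → I → I) (hπ : ∀ x i k, Z.rho (Dg x) i k = if k = π x i then 1 else 0)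
    (x : (ZMod Z.L)ˣ) (i : I) : π x⁻¹ (π x i) = i := by
  have h : (Z.rho (Dg x) * Z.rho (Dg x⁻¹)) i i = 1 := by
    rw [← map_mul, Dg_mul, map_one, Matrix.one_apply_eq]
  rw [Matrix.mul_apply] at h
  simp only [hπ, ite_mul, one_mul, zero_mul, Finset.sum_ite_eq', Finset.mem_univ, if_true] at h
  by_contra hne
  rw [if_neg (fun hh => hne hh.symm)] at h
  exact zero_ne_one h

private theorem key {I : Type} [Fintype I] [DecidableEq I] (Z : CentreData I) {p : ℕ}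
    (b : ZMod Z.L) (X : PD I p 1) (hb : b * b = b)
    (π : (ZMod Z.L)ˣ → I → I) (hπ : ∀ x i k, Z.rho (Dg x) i k = if k = π x i then 1 else 0)
    (σ : ℂ ≃+* ℂ) (c x : (ZMod Z.L)ˣ)
    (hσ : ∀ g g' : SL Z.L, g' 0 0 = g 0 0 → g' 0 1 = (c : ZMod Z.L) * g 0 1 →
      (c : ZMod Z.L) * g' 1 0 = g 1 0 → g' 1 1 = g 1 1 → ∀ i j, Z.rho g' i j = σ (Z.rho g i j))
    (h1 : (x : ZMod Z.L) * b = b) (h2 : (x : ZMod Z.L) * (1 - b) = (c : ZMod Z.L) * (1 - b))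
    (i k : I) : σ (zz Z b X i k) = zz Z b X i (π x k) := by
  obtain ⟨q0, q1, q2, q3⟩ := g_ent b hb c x h1 h2
  have h := hσ (s2 (1 - b)) (s2 (1 - b) * Dg x⁻¹) q0 q1 q2 q3 i k
  rw [map_mul, Matrix.mul_apply] at h
  have hsum : ∑ l, Z.rho (s2 (1 - b)) i l * Z.rho (Dg x⁻¹) l k =
      Z.rho (s2 (1 - b)) i (π x k) := by
    rw [Finset.sum_eq_single (π x k)]
    · rw [hπ, if_pos (pi_inv Z π hπ x k).symm, mul_one]
    · intro l _ hl
      rw [hπ, if_neg, mul_zero]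
      intro hk
      apply hl
      have h3 := pi_inv Z π hπ x⁻¹ l
      rw [inv_inv] at h3
      rw [← h3, ← hk]
    · intro hh
      exact absurd (Finset.mem_univ _) hh
  rw [hsum] at h
  unfold zz
  rw [map_mul, map_natCast, ← h]

theorem hGAZ : StGAZ := by
  intro I _ _ Z p b X hq π hπ
  have hb : b * b = b := hq.lk.idp.idem
  refine ⟨fun σ => ?_, fun x hx => ?_⟩
  · obtain ⟨c, hc⟩ := Z.galois σ
    have hcc : (c : ZMod Z.L) * ((c⁻¹ : (ZMod Z.L)ˣ) : ZMod Z.L) = 1 := c.mul_inv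
    let x : (ZMod Z.L)ˣ :=
      { val := b + (c : ZMod Z.L) * (1 - b)
        inv := b + ((c⁻¹ : (ZMod Z.L)ˣ) : ZMod Z.L) * (1 - b)
        val_inv := by
          linear_combination (1 - b) ^ 2 * hcc + (2 - (c : ZMod Z.L) -
            ((c⁻¹ : (ZMod Z.L)ˣ) : ZMod Z.L)) * hb
        inv_val := by
          linear_combination (1 - b) ^ 2 * hcc + (2 - (c : ZMod Z.L) -
            ((c⁻¹ : (ZMod Z.L)ˣ) : ZMod Z.L)) * hb }
    have hxv : (x : ZMod Z.L) = b + (c : ZMod Z.L) * (1 - b) := rfl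
    refine ⟨x, ?_, fun i k => ?_⟩
    · unfold Tr
      rw [hxv]
      linear_combination (1 - (c : ZMod Z.L)) * hb
    · refine key Z b X hb π hπ σ c x hc ?_ ?_ i k
      · rw [hxv]
        linear_combination (1 - (c : ZMod Z.L)) * hb
      · rw [hxv]
        linear_combination ((c : ZMod Z.L) - 1) * hb
  · obtain ⟨σ, hσ⟩ := Pool.Agent.Helper90.OS.hAUT I Z.toCentreRep x
    refine ⟨σ, fun i k => key Z b X hb π hπ σ x x hσ ?_ rfl i k⟩
    unfold Tr at hx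
    linear_combination hx

end Pool.Agent.Helper61.AL
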